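import Pool.Agent.Y6.K.Stm

/-!
# Project EK, job LOCRIC: local bounds and blow-up for the chain
-/

open Set Filter Topology MeasureTheory

set_option autoImplicit false

namespace Pool.Agent.Y6.K

private lemma A_ge_one {A : ℕ → ℝ} (hA : Chain A) (n : ℕ) : (7 / 5 : ℝ) ^ n ≤ A n := by
  induction n with
  | zero => simpa using hA.A0
  | succ n ih =>
    have := hA.lo n
    rw [pow_succ]
    nlinarith

private lemma one_le_A {A : ℕ → ℝ} (hA : Chain A) (n : ℕ) : 1 ≤ A n :=
  le_trans (one_le_pow₀ (by norm_num)) (A_ge_one hA n)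

private lemma A_le_pow {A : ℕ → ℝ} (hA : Chain A) (n : ℕ) : A n ≤ A 0 * 2 ^ n := by
  induction n with
  | zero => simp
  | succ n ih =>
    have := hA.hi n
    rw [pow_succ]
    nlinarith

private lemma phi_bound {A : ℕ → ℝ} (hA : Chain A) (n : ℕ) :
    A n ^ 3 * φ0 n ≤ A 0 ^ 3 * Real.exp 3 := by
  have h1 : A n ^ 3 ≤ A 0 ^ 3 * 8 ^ n := by
    calc A n ^ 3 ≤ (A 0 * 2 ^ n) ^ 3 :=
          pow_le_pow_left₀ (zero_le_one.trans (one_le_A hA n)) (A_le_pow hA n) 3
      _ = A 0 ^ 3 * 8 ^ n := by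
          rw [mul_pow, ← pow_mul, mul_comm n 3, pow_mul]
          norm_num
  have h8 : (8 : ℝ) ≤ Real.exp 3 := by
    have h2 : (2 : ℝ) ≤ Real.exp 1 := by
      have := Real.add_one_le_exp (1 : ℝ)
      linarith
    calc (8 : ℝ) = 2 ^ 3 := by norm_num
      _ ≤ Real.exp 1 ^ 3 := pow_le_pow_left₀ (by norm_num) h2 3
      _ = Real.exp 3 := by
        rw [← Real.exp_nat_mul]
        norm_num
  have h2 : (8 : ℝ) ^ n * Real.exp (-(n : ℝ) ^ 2) ≤ Real.exp 3 := by
    calc (8 : ℝ) ^ n * Real.exp (-(n : ℝ) ^ 2) ≤ Real.exp 3 ^ n * Real.exp (-(n : ℝ) ^ 2) := by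
          gcongr
      _ = Real.exp (n * 3 + -(n : ℝ) ^ 2) := by
          rw [← Real.exp_nat_mul, ← Real.exp_add]
      _ ≤ Real.exp 3 := by
          apply Real.exp_le_exp.mpr
          nlinarith [sq_nonneg ((n : ℝ) - 3 / 2)]
  have hA0 : 0 ≤ A 0 ^ 3 := pow_nonneg (zero_le_one.trans (one_le_A hA 0)) 3
  unfold φ0
  calc A n ^ 3 * (Real.exp (-(n : ℝ) ^ 2) / 1000)
      ≤ (A 0 ^ 3 * 8 ^ n) * (Real.exp (-(n : ℝ) ^ 2) / 1000) := by
        gcongr
    _ = A 0 ^ 3 * (8 ^ n * Real.exp (-(n : ℝ) ^ 2)) / 1000 := by ring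
    _ ≤ A 0 ^ 3 * Real.exp 3 / 1000 := by gcongr
    _ ≤ A 0 ^ 3 * Real.exp 3 := by
        have : 0 ≤ A 0 ^ 3 * Real.exp 3 := mul_nonneg hA0 (Real.exp_pos 3).le
        linarith

/-- bound of the derivative as long as the weighted amplitudes are at most `W` -/
private lemma deriv_bound {A : ℕ → ℝ} (hA : Chain A) (W : ℝ) (hW : 0 ≤ W) (x : ℕ → ℝ)
    (hx : ∀ n, A n ^ 3 * |x n| ≤ W) (y : ℝ) (n : ℕ) (hy : |y| ≤ φ0 n) :
    A n ^ 3 * |cvf A x n + y| ≤ 9 * W ^ 2 + A 0 ^ 3 * Real.exp 3 := by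
  have hA1 := one_le_A hA
  have h3 : A n ^ 3 * |y| ≤ A 0 ^ 3 * Real.exp 3 :=
    (mul_le_mul_of_nonneg_left hy (by have := hA1 n; positivity)).trans (phi_bound hA n)
  have h1 : A n ^ 3 * |if n = 0 then 0 else A (n - 1) * x (n - 1) ^ 2| ≤ 8 * W ^ 2 := by
    cases n with
    | zero => simp; positivity
    | succ m =>
      simp only [Nat.succ_ne_zero, if_false, Nat.add_sub_cancel]
      have ha := hA1 m
      have hb := hA.hi m
      have hb1 := hA1 (m + 1)
      have h4 : A (m + 1) ^ 3 ≤ 8 * A m ^ 3 := by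
        calc A (m + 1) ^ 3 ≤ (2 * A m) ^ 3 := pow_le_pow_left₀ (by linarith) hb 3
          _ = 8 * A m ^ 3 := by ring
      have h5 : A m ≤ A m ^ 3 := by
        calc A m = A m ^ 1 := (pow_one _).symm
          _ ≤ A m ^ 3 := pow_le_pow_right₀ ha (by norm_num)
      rw [abs_of_nonneg (by positivity)]
      calc A (m + 1) ^ 3 * (A m * x m ^ 2) ≤ (8 * A m ^ 3) * (A m ^ 3 * x m ^ 2) := by
            gcongr
        _ = 8 * (A m ^ 3 * |x m|) ^ 2 := by
            rw [mul_pow, sq_abs]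
            ring
        _ ≤ 8 * W ^ 2 := by
            have := hx m
            gcongr
  have h2 : A n ^ 3 * |A n * x n * x (n + 1)| ≤ W ^ 2 := by
    have ha := hA1 n
    have hb : A n ≤ A (n + 1) := by
      have := hA.lo n
      linarith
    have hc : A (n + 1) ≤ A (n + 1) ^ 3 := by
      calc A (n + 1) = A (n + 1) ^ 1 := (pow_one _).symm
        _ ≤ A (n + 1) ^ 3 := pow_le_pow_right₀ (hA1 (n + 1)) (by norm_num)
    rw [abs_mul, abs_mul, abs_of_nonneg (by linarith : (0 : ℝ) ≤ A n)]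
    calc A n ^ 3 * (A n * |x n| * |x (n + 1)|) = (A n ^ 3 * |x n|) * (A n * |x (n + 1)|) := by ring
      _ ≤ (A n ^ 3 * |x n|) * (A (n + 1) ^ 3 * |x (n + 1)|) := by
          gcongr
          exact hb.trans hc
      _ ≤ W * W := mul_le_mul (hx n) (hx (n + 1)) (by have := hA1 (n + 1); positivity) hW
      _ = W ^ 2 := by ring
  have h4 : |cvf A x n + y| ≤ |if n = 0 then 0 else A (n - 1) * x (n - 1) ^ 2| +
      |A n * x n * x (n + 1)| + |y| := by
    unfold cvf
    exact (abs_add_le _ _).trans (add_le_add (abs_sub _ _) le_rfl)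
  calc A n ^ 3 * |cvf A x n + y| ≤ A n ^ 3 * (|if n = 0 then 0 else A (n - 1) * x (n - 1) ^ 2| +
        |A n * x n * x (n + 1)| + |y|) := by
        have := hA1 n
        gcongr
    _ = A n ^ 3 * |if n = 0 then 0 else A (n - 1) * x (n - 1) ^ 2| +
        A n ^ 3 * |A n * x n * x (n + 1)| + A n ^ 3 * |y| := by ring
    _ ≤ _ := by linarith

/-- a continuity argument -/
private lemma continuity_arg {a b W : ℝ} {N : ℕ} (w : ℕ → ℝ → ℝ)
    (hc : ∀ n ≤ N, ContinuousOn (w n) (Icc a b))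
    (h : ∀ t ∈ Icc a b, (∀ u ∈ Ico a t, ∀ n ≤ N, w n u ≤ W) → ∀ n ≤ N, w n t < W) :
    ∀ t ∈ Icc a b, ∀ n ≤ N, w n t ≤ W := by
  by_contra hcon
  push Not at hcon
  obtain ⟨t, ht, n, hn, hlt⟩ := hcon
  let B : Set ℝ := ⋃ n ∈ Iic N, (Icc a b ∩ (w n) ⁻¹' (Ici W))
  have hBc : IsCompact B := by
    refine (Set.finite_Iic N).isCompact_biUnion fun n hn => ?_
    exact isCompact_Icc.of_isClosed_subset
      ((hc n hn).preimage_isClosed_of_isClosed isClosed_Icc isClosed_Ici) inter_subset_left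
  have hBn : B.Nonempty := ⟨t, mem_biUnion (show n ∈ Iic N from hn) ⟨ht, hlt.le⟩⟩
  obtain ⟨s, hs, hsl⟩ := hBc.exists_isLeast hBn
  obtain ⟨m, hm, hsI, hsW⟩ := mem_iUnion₂.mp hs
  have h1 := h s hsI (fun u hu k hk => by
    by_contra h2
    push Not at h2
    have : s ≤ u := hsl (mem_biUnion (show k ∈ Iic N from hk)
      ⟨⟨hu.1, hu.2.le.trans hsI.2⟩, h2.le⟩)
    exact absurd hu.2 (not_lt.mpr this)) m hm
  exact absurd h1 (not_lt.mpr hsW)

/-- Local bounds. -/
theorem t_LOC : S_LOC := by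
  intro A hA X
  have hA1 := one_le_A hA
  set W : ℝ := 2 * (|X| + 1) with hWdef
  have hX0 := abs_nonneg X
  have hW0 : 0 ≤ W := by rw [hWdef]; positivity
  set D : ℝ := 9 * W ^ 2 + A 0 ^ 3 * Real.exp 3 with hDdef
  have hD0 : 0 ≤ D := by
    have := hA1 0
    have := Real.exp_pos 3
    rw [hDdef]
    positivity
  refine ⟨1 / (2 * (D + 1)), W, by positivity, ?_⟩
  intro N a b x f hab hbδ hS hN hinit
  have hcont : ∀ n ≤ N, ContinuousOn (x n) (Icc a b) := fun n hn t ht =>
    (hS.deriv n hn t ht).continuousWithinAt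
  have key : ∀ t ∈ Icc a b, ∀ n ≤ N, A n ^ 3 * |x n t| ≤ W := by
    refine continuity_arg (fun n t => A n ^ 3 * |x n t|)
      (fun n hn => continuousOn_const.mul (hcont n hn).abs) ?_
    intro t ht hu n hn
    have hall : ∀ u ∈ Ico a t, ∀ m, A m ^ 3 * |x m u| ≤ W := by
      intro u hu' m
      by_cases hm : m ≤ N
      · exact hu u hu' m hm
      · rw [hN m (not_le.mp hm) u ⟨hu'.1, hu'.2.le.trans ht.2⟩]
        simpa using hW0
    have hA3 : 0 < A n ^ 3 := by
      have := hA1 n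
      positivity
    have hbound : ∀ u ∈ Ico a t, ‖cvf A (fun m => x m u) n + f n u‖ ≤ D / A n ^ 3 := by
      intro u hu'
      rw [Real.norm_eq_abs, le_div_iff₀ hA3, mul_comm]
      exact deriv_bound hA W hW0 (fun m => x m u) (hall u hu') (f n u) n
        (hS.pert n u ⟨hu'.1, hu'.2.le.trans ht.2⟩)
    have hder : ∀ u ∈ Icc a t, HasDerivWithinAt (x n) (cvf A (fun m => x m u) n + f n u)
        (Icc a t) u := fun u hu' =>
      (hS.deriv n hn u ⟨hu'.1, hu'.2.trans ht.2⟩).mono (Icc_subset_Icc le_rfl ht.2)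
    have hmv := norm_image_sub_le_of_norm_deriv_le_segment' hder hbound t (right_mem_Icc.mpr ht.1)
    rw [Real.norm_eq_abs] at hmv
    have h1 : A n ^ 3 * |x n t - x n a| ≤ D * (t - a) := by
      calc A n ^ 3 * |x n t - x n a| ≤ A n ^ 3 * (D / A n ^ 3 * (t - a)) := by gcongr
        _ = D * (t - a) := by
          rw [← mul_assoc, mul_div_cancel₀ _ hA3.ne']
    have h2 : D * (t - a) ≤ 1 / 2 := by
      have h3 : t - a ≤ 1 / (2 * (D + 1)) := by linarith [ht.2]
      calc D * (t - a) ≤ D * (1 / (2 * (D + 1))) := by gcongr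
        _ = (D / (D + 1)) * (1 / 2) := by
          field_simp
        _ ≤ 1 * (1 / 2) := by
          gcongr
          rw [div_le_one (by positivity)]
          linarith
        _ = 1 / 2 := by norm_num
    have h4 : |x n t| ≤ |x n a| + |x n t - x n a| := by
      have := abs_add_le (x n a) (x n t - x n a)
      rwa [add_sub_cancel] at this
    have h5 := hinit n
    have h6 := le_abs_self X
    calc A n ^ 3 * |x n t| ≤ A n ^ 3 * (|x n a| + |x n t - x n a|) := by gcongr
      _ = A n ^ 3 * |x n a| + A n ^ 3 * |x n t - x n a| := by ring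
      _ < W := by
        rw [hWdef]
        linarith
  intro n t ht
  by_cases hn : n ≤ N
  · have ha := hA1 n
    calc A n * |x n t| ≤ A n ^ 3 * |x n t| := by
          gcongr
          calc A n = A n ^ 1 := (pow_one _).symm
            _ ≤ A n ^ 3 := pow_le_pow_right₀ ha (by norm_num)
      _ ≤ W := key t ht n hn
  · rw [hN n (not_le.mp hn) t ht]
    simpa using hW0

/-! ### Blow-up of the sum -/

private lemma sum_cvf {A : ℕ → ℝ} (hA : Chain A) (x : ℕ → ℝ) (N : ℕ) :
    13 / 84 * ∑ n ∈ Finset.range (N + 1), A n * x n ^ 2 - A N * x N ^ 2 -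
      3 / 7 * (A (N + 1) * x (N + 1) ^ 2) ≤ ∑ n ∈ Finset.range (N + 1), cvf A x n := by
  have hA1 := one_le_A hA
  have hmix : ∀ n, A n * x n * x (n + 1) ≤ 5 / 12 * (A n * x n ^ 2) +
      3 / 7 * (A (n + 1) * x (n + 1) ^ 2) := by
    intro n
    have h1 := hA.lo n
    have h2 : 3 / 5 * (A n * x (n + 1) ^ 2) ≤ 3 / 7 * (A (n + 1) * x (n + 1) ^ 2) := by
      nlinarith [sq_nonneg (x (n + 1))]
    have h3 : A n * x n * x (n + 1) ≤ 5 / 12 * (A n * x n ^ 2) +
        3 / 5 * (A n * x (n + 1) ^ 2) := by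
      have h4 : 0 ≤ A n * (5 / 12 * x n ^ 2 + 3 / 5 * x (n + 1) ^ 2 - x n * x (n + 1)) := by
        have := hA1 n
        refine mul_nonneg (by linarith) ?_
        nlinarith [sq_nonneg (5 * x n - 6 * x (n + 1))]
      nlinarith
    linarith
  have hpos : ∀ n, 0 ≤ A n * x n ^ 2 := fun n => mul_nonneg (by linarith [hA1 n]) (sq_nonneg _)
  induction N with
  | zero =>
    have h := hmix 0
    simp only [zero_add, Finset.sum_range_one, cvf, if_true] at *
    linarith [hpos 0]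
  | succ N ih =>
    rw [Finset.sum_range_succ, Finset.sum_range_succ (fun n => cvf A x n)]
    have h := hmix (N + 1)
    have h5 : cvf A x (N + 1) = A N * x N ^ 2 - A (N + 1) * x (N + 1) * x (N + 1 + 1) := by
      simp [cvf]
    rw [h5]
    linarith

private lemma sum_inv {A : ℕ → ℝ} (hA : Chain A) (N : ℕ) :
    ∑ n ∈ Finset.range N, (A n)⁻¹ ≤ 7 / 2 := by
  have h1 : ∑ n ∈ Finset.range N, (A n)⁻¹ ≤ ∑ n ∈ Finset.range N, (5 / 7 : ℝ) ^ n := by
    refine Finset.sum_le_sum fun n _ => ?_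
    have h2 := A_ge_one hA n
    calc (A n)⁻¹ ≤ ((7 / 5 : ℝ) ^ n)⁻¹ := inv_anti₀ (by positivity) h2
      _ = (5 / 7 : ℝ) ^ n := by
        rw [← inv_pow]
        norm_num
  refine h1.trans ?_
  have h3 := Summable.sum_le_tsum (Finset.range N) (f := fun n : ℕ => (5 / 7 : ℝ) ^ n)
    (fun n _ => by positivity) (summable_geometric_of_lt_one (by norm_num) (by norm_num))
  rw [tsum_geometric_of_lt_one (by norm_num) (by norm_num)] at h3
  norm_num at h3 ⊢
  exact h3

private lemma sum_phi (N : ℕ) : ∑ n ∈ Finset.range N, φ0 n ≤ 2 / 1000 := by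
  have h1 : ∑ n ∈ Finset.range N, φ0 n ≤ ∑ n ∈ Finset.range N, (1 / 2 : ℝ) ^ n / 1000 := by
    refine Finset.sum_le_sum fun n _ => ?_
    unfold φ0
    gcongr
    have h2 : Real.exp (-1) ≤ 1 / 2 := by
      have h3 := Real.add_one_le_exp (1 : ℝ)
      rw [Real.exp_neg, one_div]
      exact inv_anti₀ (by norm_num) (by linarith)
    calc Real.exp (-(n : ℝ) ^ 2) ≤ Real.exp ((n : ℝ) * (-1)) := by
          apply Real.exp_le_exp.mpr
          have : (n : ℝ) ≤ (n : ℝ) ^ 2 := by
            have h4 : n ≤ n ^ 2 := Nat.le_self_pow (by norm_num) n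
            exact_mod_cast h4
          linarith
      _ = Real.exp (-1) ^ n := by rw [← Real.exp_nat_mul]
      _ ≤ (1 / 2 : ℝ) ^ n := pow_le_pow_left₀ (Real.exp_pos _).le h2 n
  refine h1.trans ?_
  rw [← Finset.sum_div]
  gcongr
  have h3 := Summable.sum_le_tsum (Finset.range N) (f := fun n : ℕ => (1 / 2 : ℝ) ^ n)
    (fun n _ => by positivity) summable_geometric_two
  rwa [tsum_geometric_two] at h3

/-- Regular solutions do not exist for a long time. -/
theorem t_RIC : S_RIC := by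
  intro A hA θ x f hθ0 hθ60 hS hx0 hx1 ⟨M, hM⟩
  by_contra hθ
  push Not at hθ
  have hA1 := one_le_A hA
  -- the boundary terms are small
  have hM0 : 0 ≤ M := by
    have := hM 0 0 ⟨le_rfl, hθ0⟩
    exact le_trans (mul_nonneg (pow_nonneg (by linarith [hA1 0]) 4) (abs_nonneg _)) this
  have hsmall : ∀ n, ∀ t ∈ Icc 0 θ, A n * x n t ^ 2 ≤ M ^ 2 * (5 / 7 : ℝ) ^ n := by
    intro n t ht
    have h1 := hM n t ht
    have h2 := A_ge_one hA n
    have h3 := hA1 n
    have h4 : (A n ^ 4 * |x n t|) ^ 2 ≤ M ^ 2 :=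
      pow_le_pow_left₀ (by positivity) h1 2
    have h5 : A n ^ 8 * x n t ^ 2 ≤ M ^ 2 := by
      rw [mul_pow, sq_abs, ← pow_mul] at h4
      exact h4
    have h6 : (7 / 5 : ℝ) ^ n * (A n * x n t ^ 2) ≤ M ^ 2 := by
      calc (7 / 5 : ℝ) ^ n * (A n * x n t ^ 2) ≤ A n * (A n * x n t ^ 2) := by gcongr
        _ = A n ^ 2 * x n t ^ 2 := by ring
        _ ≤ A n ^ 8 * x n t ^ 2 := by
          gcongr ?_ * _
          exact pow_le_pow_right₀ h3 (by norm_num)
        _ ≤ M ^ 2 := h5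
    have h7 : (5 / 7 : ℝ) ^ n * ((7 / 5 : ℝ) ^ n * (A n * x n t ^ 2)) = A n * x n t ^ 2 := by
      rw [← mul_assoc, ← mul_pow]
      norm_num
    rw [← h7, mul_comm (M ^ 2)]
    gcongr
  obtain ⟨N, hN⟩ : ∃ N : ℕ, M ^ 2 * (5 / 7 : ℝ) ^ N ≤ 1 / 2000 := by
    have h1 : Tendsto (fun n : ℕ => M ^ 2 * (5 / 7 : ℝ) ^ n) atTop (𝓝 (M ^ 2 * 0)) :=
      (tendsto_pow_atTop_nhds_zero_of_lt_one (by norm_num) (by norm_num)).const_mul _
    rw [mul_zero] at h1
    obtain ⟨N, hN⟩ := (h1.eventually (ge_mem_nhds (show (0 : ℝ) < 1 / 2000 by norm_num))).exists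
    exact ⟨N, hN⟩
  have hN1 : M ^ 2 * (5 / 7 : ℝ) ^ (N + 1) ≤ 1 / 2000 := by
    refine le_trans ?_ hN
    gcongr M ^ 2 * ?_
    exact pow_le_pow_of_le_one (by norm_num) (by norm_num) (Nat.le_succ N)
  -- the partial sum and its derivative
  set T : ℝ → ℝ := fun t => ∑ n ∈ Finset.range (N + 1), x n t with hT
  set T' : ℝ → ℝ := fun t => ∑ n ∈ Finset.range (N + 1),
    (cvf A (fun m => x m t) n + f n t) with hT'
  have hder : ∀ t ∈ Icc 0 θ, HasDerivWithinAt T (T' t) (Icc 0 θ) t := by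
    intro t ht
    have := HasDerivWithinAt.fun_sum (u := Finset.range (N + 1)) (A := fun n => x n)
      (A' := fun n => cvf A (fun m => x m t) n + f n t) (s := Icc 0 θ) (x := t)
      (fun n hn => (hS N).deriv n (by simpa [Nat.lt_succ_iff] using hn) t ht)
    exact this
  have hT0 : T 0 = 1 := by
    simp only [hT]
    rw [Finset.sum_range_succ']
    simp [hx0, hx1]
  have hTlow : ∀ t ∈ Icc 0 θ, 13 / 294 * T t ^ 2 - 3 / 1000 ≤ T' t := by
    intro t ht
    have h1 := sum_cvf hA (fun m => x m t) N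
    have h2 : (T t) ^ 2 ≤ 7 / 2 * ∑ n ∈ Finset.range (N + 1), A n * x n t ^ 2 := by
      have h3 := Finset.sum_sq_le_sum_mul_sum_of_sq_le_mul (Finset.range (N + 1))
        (r := fun n => x n t) (f := fun n => (A n)⁻¹) (g := fun n => A n * x n t ^ 2)
        (fun n _ => inv_nonneg.mpr (by linarith [hA1 n]))
        (fun n _ => mul_nonneg (by linarith [hA1 n]) (sq_nonneg _))
        (fun n _ => by
          have : A n ≠ 0 := by linarith [hA1 n]
          rw [← mul_assoc, inv_mul_cancel₀ this, one_mul])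
      refine h3.trans ?_
      refine mul_le_mul_of_nonneg_right (sum_inv hA _) ?_
      exact Finset.sum_nonneg fun n _ => mul_nonneg (by linarith [hA1 n]) (sq_nonneg _)
    have h4 : -(2 / 1000) ≤ ∑ n ∈ Finset.range (N + 1), f n t := by
      have h5 : ∑ n ∈ Finset.range (N + 1), -φ0 n ≤ ∑ n ∈ Finset.range (N + 1), f n t :=
        Finset.sum_le_sum fun n _ => (abs_le.mp ((hS N).pert n t ht)).1
      rw [Finset.sum_neg_distrib] at h5
      linarith [sum_phi (N + 1)]
    have h6 := hsmall N t ht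
    have h7 := hsmall (N + 1) t ht
    simp only [hT', Finset.sum_add_distrib]
    have h8 : 13 / 294 * T t ^ 2 ≤ 13 / 84 * ∑ n ∈ Finset.range (N + 1), A n * x n t ^ 2 := by
      linarith
    linarith
  -- `T` is bounded below
  have hTge : ∀ t ∈ Icc 0 θ, 82 / 100 ≤ T t := by
    intro t ht
    have hmono : MonotoneOn (fun s => T s + 3 / 1000 * s) (Icc 0 θ) := by
      refine monotoneOn_of_hasDerivWithinAt_nonneg (f' := fun s => T' s + 3 / 1000 * 1)
        (convex_Icc 0 θ) ?_ ?_ ?_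
      · intro s hs
        exact ((hder s hs).continuousWithinAt).add
          (continuousWithinAt_const.mul continuousWithinAt_id)
      · intro s hs
        have hs' : s ∈ Icc 0 θ := interior_subset hs
        exact ((hder s hs').mono interior_subset).add
          ((hasDerivWithinAt_id s _).const_mul (3 / 1000))
      · intro s hs
        have := hTlow s (interior_subset hs)
        have h9 := sq_nonneg (T s)
        linarith
    have := hmono (left_mem_Icc.mpr hθ0) ht ht.1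
    simp only [mul_zero, add_zero, hT0] at this
    have h60 : t ≤ 60 := ht.2.trans hθ60
    linarith
  have hTpos : ∀ t ∈ Icc 0 θ, T t ≠ 0 := fun t ht => by linarith [hTge t ht]
  -- the Riccati inequality
  have hmono : MonotoneOn (fun s => -(T s)⁻¹ - 1 / 29 * s) (Icc 0 θ) := by
    refine monotoneOn_of_hasDerivWithinAt_nonneg
      (f' := fun s => -(-(T' s) / (T s) ^ 2) - 1 / 29 * 1) (convex_Icc 0 θ) ?_ ?_ ?_
    · intro s hs
      exact (((hder s hs).continuousWithinAt).inv₀ (hTpos s hs)).neg.sub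
        (continuousWithinAt_const.mul continuousWithinAt_id)
    · intro s hs
      have hs' : s ∈ Icc 0 θ := interior_subset hs
      exact ((((hder s hs').mono interior_subset).fun_inv (hTpos s hs')).neg).sub
        ((hasDerivWithinAt_id s _).const_mul (1 / 29))
    · intro s hs
      have hs' : s ∈ Icc 0 θ := interior_subset hs
      have h1 := hTlow s hs'
      have h2 := hTge s hs'
      have h3 : 0 < T s ^ 2 := by positivity
      have h4 : 1 / 29 ≤ T' s / T s ^ 2 := by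
        rw [le_div_iff₀ h3]
        nlinarith
      have h5 : -(-(T' s) / (T s) ^ 2) = T' s / T s ^ 2 := by ring
      rw [h5]
      linarith
  have hend := hmono (left_mem_Icc.mpr hθ0) (right_mem_Icc.mpr hθ0) hθ0
  simp only [hT0, mul_zero, sub_zero, inv_one] at hend
  have hpos : 0 < (T θ)⁻¹ := by
    have := hTge θ (right_mem_Icc.mpr hθ0)
    positivity
  linarith

end Pool.Agent.Y6.K
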